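import Pool.Agent.MP_0b7c94_al.Construction

/-!
# An infinite locally finite simple group without nonabelian finite simple subgroups

The construction is carried out in `Pool/Agent/MP_0b7c94_al/Construction.lean`.  Outline:

* Let a finite group `E` act on a finite set `X` with base point `x₀`, and put `m = |E|`.  Take
  the connected graph with vertex set `X` and edge set `E × X × X` (the edge `(e, x, y)` goes
  from `x` to `y`); `E` acts freely on its edges.  Let `E'` be the group of all pairs `(c, g)`,
  `c` a `1`-chain mod `m` with boundary `g x₀ - x₀`.  It is an extension of `E` with abelian
  kernel, the stabilizer of `x₀` lifts to it, and it acts on the vertices of the maximal abelian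
  cover of exponent `m` of the graph.
* If an element of prime order of `E` lifts to an element of the same order of `E'` then it fixes
  a vertex in `X`, and all vertices of the cover fixed by one such lift lie above one vertex.
* Iterating `s` times gives a solvable extension `F` of `E` such that each subgroup of order at
  most `s` of `F` meeting the kernel trivially fixes a vertex in `X` (induction on `s` and
  Burnside counting).
* Let `H` be a finite perfect group without nonabelian simple subgroups, inside an alternating
  group `A` acting on `A/H`.  This gives a finite perfect group `D` containing `H`, a solvable
  extension of `A`, in which each nontrivial element of `H` has normal closure `D`, and in which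
  all simple subgroups are abelian.
* The union of a chain of such groups is the required group.
-/

set_option autoImplicit false

namespace Pool.Agent.Results.MP_0b7c94_al.NoNonabelianSimple

/-- There is an infinite, locally finite, simple group all of whose finite simple subgroups are
cyclic of prime order. -/
theorem result : ∃ (G : Type) (_ : Group G), Infinite G ∧
    (∀ K : Subgroup G, K.FG → Finite K) ∧ IsSimpleGroup G ∧
    ∀ S : Subgroup G, Finite S → IsSimpleGroup S → IsCyclic S ∧ (Nat.card S).Prime := by
  obtain ⟨L, gL, h1, h2, h3, h4⟩ := Pool.Agent.MP_0b7c94_al.main
  refine ⟨L, gL, h1, h2, h3, fun S hS hSs => ?_⟩
  have hcomm : ∀ a b : S, a * b = b * a := h4 S hS hSs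
  let inst : CommGroup S := { (inferInstance : Group S) with mul_comm := hcomm }
  have hp : (Nat.card S).Prime := (CommGroup.is_simple_iff_prime_card (α := S)).mp hSs
  have hfact : Fact (Nat.card S).Prime := ⟨hp⟩
  exact ⟨isCyclic_of_prime_card (p := Nat.card S) rfl, hp⟩

end Pool.Agent.Results.MP_0b7c94_al.NoNonabelianSimple
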